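import Pool.Agent.Helper87.Irr.GoalsA

/-!
Packet A12 (`EP`) of MP_033e98_co.
-/

namespace Irr43

open Irr87

theorem exists_parts (ks : List ℕ) : ∀ M : Multiset ℕ, ks.sum ≤ Multiset.card M →
    ∃ As : List (Multiset ℕ), As.map Multiset.card = ks ∧ As.sum ≤ M := by
  induction ks with
  | nil => intro M _; exact ⟨[], rfl, by simp⟩
  | cons k ks ih =>
    intro M hM
    rw [List.sum_cons] at hM
    obtain ⟨A, hA, hAk⟩ : ∃ A ≤ M, Multiset.card A = k := by
      refine ⟨(M.toList.take k : List ℕ), ?_, ?_⟩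
      · conv_rhs => rw [← M.coe_toList]
        exact Multiset.coe_le.2 (List.take_sublist k M.toList).subperm
      · simp only [Multiset.coe_card, List.length_take, Multiset.length_toList]
        omega
    obtain ⟨As, h1, h2⟩ := ih (M - A) (by rw [Multiset.card_sub hA]; omega)
    refine ⟨A :: As, by simp [hAk, h1], ?_⟩
    rw [List.sum_cons]
    calc A + As.sum ≤ A + (M - A) := by gcongr
      _ = M := add_tsub_cancel_of_le hA

theorem ep_fun (R : Finset ℕ) (n : ℕ) (c b : Fin n → ℕ) (hc : ∀ i, 1 ≤ c i)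
    (A₀ : Fin n → Multiset ℕ) (h1 : ∀ i, Multiset.card (A₀ i) = c i)
    (h2 : ∑ i, A₀ i ≤ R.val) :
    ∃ A : Fin n → Multiset ℕ, (∀ i, Multiset.card (A i) = c i) ∧ ∑ i, A i ≤ R.val ∧
      Function.Injective (fun i => (A i).sum + b i) := by
  classical
  set P : (Fin n → Multiset ℕ) → Prop :=
    fun A => (∀ i, Multiset.card (A i) = c i) ∧ ∑ i, A i ≤ R.val with hP
  set Φ : (Fin n → Multiset ℕ) → ℕ := fun A => ∑ i, ((A i).sum + b i) ^ 2 with hΦ
  have hbound : ∀ A, P A → Φ A ≤ ∑ i, (R.val.sum + b i) ^ 2 := by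
    intro A hA
    refine Finset.sum_le_sum fun i _ => ?_
    have : A i ≤ R.val := le_trans (Finset.single_le_sum (f := A) (fun j _ => Multiset.zero_le _)
      (Finset.mem_univ i)) hA.2
    have : (A i).sum ≤ R.val.sum := by
      obtain ⟨B, hB⟩ := Multiset.le_iff_exists_add.1 this
      rw [hB, Multiset.sum_add]
      exact Nat.le_add_right _ _
    gcongr
  have hex : ∃ A, P A ∧ ∀ A', P A' → Φ A' ≤ Φ A := by
    set N := ∑ i, (R.val.sum + b i) ^ 2 with hN
    by_contra hcon
    push Not at hcon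
    have : ∀ k : ℕ, ∃ A, P A ∧ k ≤ Φ A := by
      intro k
      induction k with
      | zero => exact ⟨A₀, ⟨h1, h2⟩, Nat.zero_le _⟩
      | succ k ih =>
        obtain ⟨A, hA, hk⟩ := ih
        obtain ⟨A', hA', hk'⟩ := hcon A hA
        exact ⟨A', hA', by omega⟩
    obtain ⟨A, hA, hk⟩ := this (N + 1)
    have := hbound A hA
    omega
  obtain ⟨A, hA, hmax⟩ := hex
  refine ⟨A, hA.1, hA.2, ?_⟩
  intro i j hij
  by_contra hne
  simp only at hij
  have hsplit : ∀ F : Fin n → Multiset ℕ, ∑ k, F k = F i + F j + ∑ k ∈ (Finset.univ.erase i).erase j, F k := by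
    intro F
    rw [← Finset.add_sum_erase _ _ (Finset.mem_univ i),
      ← Finset.add_sum_erase _ _ (Finset.mem_erase.2 ⟨Ne.symm hne, Finset.mem_univ j⟩), add_assoc]
  have hsplitN : ∀ F : Fin n → ℕ, ∑ k, F k = F i + F j + ∑ k ∈ (Finset.univ.erase i).erase j, F k := by
    intro F
    rw [← Finset.add_sum_erase _ _ (Finset.mem_univ i),
      ← Finset.add_sum_erase _ _ (Finset.mem_erase.2 ⟨Ne.symm hne, Finset.mem_univ j⟩), add_assoc]
  obtain ⟨a, ha⟩ : ∃ a, a ∈ A i := by
    apply Multiset.exists_mem_of_ne_zero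
    intro h
    have := hA.1 i
    rw [h] at this
    have := hc i
    simp at *
    omega
  obtain ⟨a', ha'⟩ : ∃ a, a ∈ A j := by
    apply Multiset.exists_mem_of_ne_zero
    intro h
    have := hA.1 j
    rw [h] at this
    have := hc j
    simp at *
    omega
  have hnd : (A i + A j).Nodup := by
    refine Multiset.nodup_of_le ?_ R.nodup
    refine le_trans ?_ hA.2
    rw [hsplit]
    exact Multiset.le_add_right _ _
  have haa : a ≠ a' := by
    rintro rfl
    rw [Multiset.nodup_add] at hnd
    exact Multiset.disjoint_left.1 hnd.2.2 ha ha'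
  set A' : Fin n → Multiset ℕ := fun k => if k = i then a' ::ₘ (A i).erase a else
    if k = j then a ::ₘ (A j).erase a' else A k with hA'
  have e1 : A' i = a' ::ₘ (A i).erase a := by simp [hA']
  have e2 : A' j = a ::ₘ (A j).erase a' := by
    show (if j = i then a' ::ₘ (A i).erase a else if j = j then a ::ₘ (A j).erase a' else A j) = _
    rw [if_neg (Ne.symm hne), if_pos rfl]
  have e3 : ∀ k ∈ (Finset.univ.erase i).erase j, A' k = A k := by
    intro k hk
    simp only [Finset.mem_erase, Finset.mem_univ, and_true] at hk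
    simp only [hA']
    rw [if_neg hk.2, if_neg hk.1]
  have hPA' : P A' := by
    constructor
    · intro k
      by_cases hki : k = i
      · subst hki
        rw [e1, Multiset.card_cons, Multiset.card_erase_of_mem ha, ← hA.1 k, Nat.pred_eq_sub_one]
        have h5 := hA.1 k
        have h6 := hc k
        omega
      · by_cases hkj : k = j
        · subst hkj
          rw [e2, Multiset.card_cons, Multiset.card_erase_of_mem ha', ← hA.1 k, Nat.pred_eq_sub_one]
          have h5 := hA.1 k
          have h6 := hc k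
          omega
        · rw [e3 k (by simp [hki, hkj])]
          exact hA.1 k
    · have : ∑ k, A' k = ∑ k, A k := by
        rw [hsplit, hsplit A, Finset.sum_congr rfl e3, e1, e2]
        congr 1
        conv_rhs => rw [← Multiset.cons_erase ha, ← Multiset.cons_erase ha']
        rw [Multiset.cons_add, Multiset.add_cons, Multiset.cons_add, Multiset.add_cons,
          Multiset.cons_swap]
      rw [this]
      exact hA.2
  have hΦ' := hmax A' hPA'
  have s1 : (A' i).sum + a = (A i).sum + a' := by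
    rw [e1, Multiset.sum_cons]
    have := Multiset.sum_erase ha
    omega
  have s2 : (A' j).sum + a' = (A j).sum + a := by
    rw [e2, Multiset.sum_cons]
    have := Multiset.sum_erase ha'
    omega
  have hΦA : Φ A = ((A i).sum + b i) ^ 2 + ((A j).sum + b j) ^ 2 +
      ∑ k ∈ (Finset.univ.erase i).erase j, ((A k).sum + b k) ^ 2 := by
    rw [hΦ]; exact hsplitN _
  have hΦA' : Φ A' = ((A' i).sum + b i) ^ 2 + ((A' j).sum + b j) ^ 2 +
      ∑ k ∈ (Finset.univ.erase i).erase j, ((A k).sum + b k) ^ 2 := by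
    show ∑ k, ((A' k).sum + b k) ^ 2 = _
    rw [hsplitN (fun k => ((A' k).sum + b k) ^ 2)]
    congr 1
    exact Finset.sum_congr rfl fun k hk => by rw [e3 k hk]
  rw [hΦA, hΦA'] at hΦ'
  have h3 : ((A' i).sum + b i) ^ 2 + ((A' j).sum + b j) ^ 2 ≤
      ((A i).sum + b i) ^ 2 + ((A j).sum + b j) ^ 2 := by omega
  have h4 : (((A' i).sum + b i : ℕ) : ℤ) ^ 2 + (((A' j).sum + b j : ℕ) : ℤ) ^ 2 ≤
      (((A i).sum + b i : ℕ) : ℤ) ^ 2 + (((A j).sum + b j : ℕ) : ℤ) ^ 2 := by exact_mod_cast h3
  have h5 : (((A' i).sum + b i : ℕ) : ℤ) = (((A i).sum + b i : ℕ) : ℤ) + ((a' : ℤ) - a) := by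
    push_cast; have : (((A' i).sum : ℕ) : ℤ) + a = (A i).sum + a' := by exact_mod_cast s1
    linarith
  have h6 : (((A' j).sum + b j : ℕ) : ℤ) = (((A i).sum + b i : ℕ) : ℤ) - ((a' : ℤ) - a) := by
    rw [hij]; push_cast; have : (((A' j).sum : ℕ) : ℤ) + a' = (A j).sum + a := by exact_mod_cast s2
    linarith
  have h7 : (((A j).sum + b j : ℕ) : ℤ) = (((A i).sum + b i : ℕ) : ℤ) := by rw [hij]
  rw [h5, h6, h7] at h4
  have h8 : ((a' : ℤ) - a) ^ 2 ≤ 0 := by nlinarith
  have h9 : (a' : ℤ) - a = 0 := by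
    have := sq_nonneg ((a' : ℤ) - a)
    exact pow_eq_zero_iff (two_ne_zero) |>.1 (le_antisymm h8 this)
  exact haa (by omega)

theorem eP : EP := by
  intro R E hE hsum
  obtain ⟨As, h1, h2⟩ := exists_parts (E.map Prod.fst) R.val hsum
  have hlen : As.length = E.length := by
    have := congrArg List.length h1
    simpa using this
  set n := E.length with hn
  set c : Fin n → ℕ := fun i => (E.get i).1 with hc
  set b : Fin n → ℕ := fun i => (E.get i).2 with hb
  set A₀ : Fin n → Multiset ℕ := fun i => As.get (i.cast hlen.symm) with hA₀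
  have hAs : As = List.ofFn A₀ := by
    apply List.ext_getElem
    · simp [hlen]
    · intro i h3 h4
      simp [hA₀]
  obtain ⟨A, hA1, hA2, hA3⟩ := ep_fun R n c b (fun i => hE _ (List.get_mem _ _)) A₀ (by
    intro i
    have h3 : (As.map Multiset.card)[(i : ℕ)]'(by simp [hlen]) =
        (E.map Prod.fst)[(i : ℕ)]'(by rw [List.length_map]; exact i.2) := by simp only [h1]
    simpa [hA₀, hc] using h3) (by
    have : As.sum = ∑ i, A₀ i := by rw [hAs, List.sum_ofFn]
    rw [← this]; exact h2)
  refine ⟨List.ofFn A, ?_, ?_, ?_⟩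
  · apply List.ext_getElem
    · simp [hn]
    · intro i h3 h4
      simp [hA1, hc]
  · rw [List.sum_ofFn]; exact hA2
  · have : List.zipWith (fun (A : Multiset ℕ) (e : ℕ × ℕ) => A.sum + e.2) (List.ofFn A) E =
        List.ofFn (fun i => (A i).sum + b i) := by
      apply List.ext_getElem
      · simp [hn]
      · intro i h3 h4
        simp [hb]
    rw [this]
    exact List.nodup_ofFn.2 hA3

end Irr43
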