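import Pool.Agent.Helper43.Irr.StarPerm

/-!
Packet A6 (`Star0`) of MP_033e98_co.
-/

namespace Irr43

open Irr87

theorem oddc_perm {ns ns' : List ℕ} (h : ns.Perm ns') : oddc ns = oddc ns' :=
  (h.filter _).length_eq

theorem oddc_cons_even {n : ℕ} {ns : List ℕ} (h : n % 2 = 0) : oddc (n :: ns) = oddc ns := by
  unfold oddc
  rw [List.filter_cons_of_neg (by simpa using (by omega : ¬ n % 2 = 1))]

theorem oddc_all {ns : List ℕ} (h : ∀ n ∈ ns, n % 2 = 1) : oddc ns = ns.length := by
  unfold oddc
  rw [List.filter_eq_self.2 (by simpa using h)]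

theorem opn_map_fst (p : ℕ) (ns : List ℕ) : (opn p ns).map Prod.fst = ns := by
  unfold opn
  rw [List.map_map]
  conv_rhs => rw [← List.map_id ns]
  rfl

theorem opn_length (p : ℕ) (ns : List ℕ) : (opn p ns).length = ns.length := by
  simp [opn]

theorem star0 (hP : Place) (hR : RE) (h1 : Star1) : Star0 := by
  intro p z C V ns hne hpos hIn hC hcard
  by_cases hev : ∃ n ∈ ns, n % 2 = 0
  · obtain ⟨n, hn, hn2⟩ := hev
    have hperm : ns.Perm (n :: ns.erase n) := List.perm_cons_erase hn
    have hodd : oddc ns = oddc (ns.erase n) := by
      rw [oddc_perm hperm, oddc_cons_even hn2]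
    have hlen : ns.length = (ns.erase n).length + 1 := by
      rw [hperm.length_eq]; simp
    have hsum : ns.sum = n + (ns.erase n).sum := by
      rw [hperm.sum_eq]; simp
    have key := h1 p 0 z 0 C V (ns.erase n) n p (fun m hm => hpos m (List.mem_of_mem_erase hm))
      (Nat.even_iff.2 hn2) (hpos n hn) (by omega) (by omega) (by omega) hIn (by
        rw [← hodd, ← hlen]
        have e1 : 3 * p + (oddc ns - 1) * p ≤ (2 + max 1 (oddc ns)) * p := by
          rcases Nat.eq_zero_or_pos (oddc ns) with h0 | h0
          · rw [h0]; simp
          · rw [max_eq_right h0, ← Nat.add_mul]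
            apply Nat.mul_le_mul_right
            omega
        omega) (by omega)
    refine star_perm ?_ key
    show ((n, p) :: opn p (ns.erase n)).Perm (opn p ns)
    exact (hperm.map (fun n => (n, p))).symm
  · push Not at hev
    have hall : ∀ n ∈ ns, n % 2 = 1 := fun n hn => by have := hev n hn; omega
    cases ns with
    | nil => exact absurd rfl hne
    | cons n t =>
      have ho := oddc_all hall
      rw [List.sum_cons] at hcard
      have hn1 := hpos n (by simp)
      obtain ⟨Dss, hs, μ, k1, k2, k3, k4, k5, k6, k7, k8⟩ := hP p V t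
        (fun m hm => hpos m (by simp [hm])) (by omega)
      obtain ⟨l1, l2, l3⟩ := runs_len k1
      rw [opn_map_fst] at l2
      rw [opn_length] at l1
      have hs1 : hs.sum ≤ p * t.length := by
        have := sum_le_len (M := p) (fun x hx => (l3 x hx).le)
        rw [l1] at this
        rw [Nat.mul_comm]; exact this
      have h2p : 2 * p ≤ C + z := by
        rw [ho, max_eq_right (by simp), List.length_cons, Nat.add_mul, Nat.mul_comm p] at hC
        omega
      have key := hR p n 0 z (C + p * t.length - hs.sum)
        (V ∪ (Dss.flatten.map (fun D => 2 * p - D)).toFinset) hn1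
        (In.mono hIn Finset.subset_union_left) (by omega) (by
          have := card_used (p := p) (V := V) (l := Dss.flatten)
          omega)
      have := star_combine (C := C) k1 k2 k3 (by rw [opn_length]; exact key)
      refine star_perm ?_ this
      show (opn p t ++ [(n, p)]).Perm ((n, p) :: opn p t)
      exact List.perm_append_comm

end Irr43
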