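import Pool.Agent.Helper43.Irr.Star0

/-!
Packet A9 (`StarL`) of MP_033e98_co.
-/

namespace Irr43

open Irr87

/-- the `k` smallest free deficits -/
theorem small_free (p k : ℕ) : ∀ V : Finset ℕ, V.card + k ≤ p →
    ∃ l : List ℕ, l.length = k ∧ l.Pairwise (· < ·) ∧ ∀ D ∈ l, D < p ∧ 2 * p - D ∉ V ∧
      ∀ D' < D, 2 * p - D' ∈ V ∨ D' ∈ l := by
  classical
  induction k with
  | zero => intro V _; exact ⟨[], rfl, List.Pairwise.nil, by simp⟩
  | succ k ih =>
    intro V hV
    have hex : ∃ D, D < p ∧ 2 * p - D ∉ V := by
      by_contra hcon
      push Not at hcon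
      have h1 : (Finset.range p).image (fun D => 2 * p - D) ⊆ V := by
        intro x hx
        obtain ⟨D, hD, rfl⟩ := Finset.mem_image.1 hx
        exact hcon D (Finset.mem_range.1 hD)
      have h2 : ((Finset.range p).image (fun D => 2 * p - D)).card = p := by
        rw [Finset.card_image_of_injOn, Finset.card_range]
        intro a ha b hb hab
        simp only [Finset.coe_range, Set.mem_Iio] at ha hb
        simp only at hab
        omega
      have := Finset.card_le_card h1
      omega
    set D0 := Nat.find hex with hD0
    have hD0s := Nat.find_spec hex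
    rw [← hD0] at hD0s
    have hmin : ∀ D < D0, 2 * p - D ∈ V := by
      intro D hD
      have := Nat.find_min hex hD
      push Not at this
      exact this (by omega)
    obtain ⟨l, h1, h2, h3⟩ := ih (insert (2 * p - D0) V) (by
      rw [Finset.card_insert_of_notMem hD0s.2]; omega)
    refine ⟨D0 :: l, by simp [h1], ?_, ?_⟩
    · rw [List.pairwise_cons]
      refine ⟨?_, h2⟩
      intro D hD
      obtain ⟨k1, k2, k3⟩ := h3 D hD
      rw [Finset.mem_insert, not_or] at k2
      by_contra hcon
      push Not at hcon
      rcases Nat.lt_or_ge D D0 with h | h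
      · exact k2.2 (hmin D h)
      · exact k2.1 (by rw [le_antisymm hcon h])
    · intro D hD
      rcases List.mem_cons.1 hD with rfl | hD
      · exact ⟨hD0s.1, hD0s.2, fun D' hD' => Or.inl (hmin D' hD')⟩
      · obtain ⟨k1, k2, k3⟩ := h3 D hD
        rw [Finset.mem_insert, not_or] at k2
        refine ⟨k1, k2.2, ?_⟩
        intro D' hD'
        rcases k3 D' hD' with h | h
        · rw [Finset.mem_insert] at h
          rcases h with h | h
          · right
            have : D' = D0 := by omega
            rw [this]; simp
          · exact Or.inl h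
        · exact Or.inr (List.mem_cons_of_mem _ h)

/-- carries along an increasing list -/
theorem inc_chain {p : ℕ} : ∀ (l : List ℕ) (c0 : ℕ), l.Pairwise (· < ·) → (∀ D ∈ l, c0 ≤ D) →
    (∀ D ∈ l, D < p) → ∃ c, Chain p c0 l c ∧ ((l = [] ∧ c = c0) ∨ ∃ D ∈ l, c ≤ D) := by
  intro l
  induction l with
  | nil => intro c0 _ _ _; exact ⟨c0, rfl, Or.inl ⟨rfl, rfl⟩⟩
  | cons D l ih =>
    intro c0 h1 h2 h3
    rw [List.pairwise_cons] at h1
    obtain ⟨c, k1, k2⟩ := ih (D - c0) h1.2 (fun D' hD' => by have := h1.1 D' hD'; omega)
      (fun D' hD' => h3 D' (List.mem_cons_of_mem _ hD'))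
    refine ⟨c, ⟨h2 D (by simp), h3 D (by simp), k1⟩, Or.inr ?_⟩
    rcases k2 with ⟨_, rfl⟩ | ⟨D', hD', hc⟩
    · exact ⟨D, by simp, by omega⟩
    · exact ⟨D', List.mem_cons_of_mem _ hD', hc⟩

theorem starL (hP : Place) : StarL := by
  classical
  intro p C P₀ u V ns hne hpos hM hP0 hC
  cases ns with
  | nil => exact absurd rfl hne
  | cons n t =>
    rw [List.sum_cons] at hM hP0
    rw [List.length_cons] at hC
    have hn1 := hpos n (by simp)
    obtain ⟨M, hMdef⟩ : ∃ M, V.card + (n + t.sum) = M + 1 := ⟨V.card + (n + t.sum) - 1, by omega⟩
    rw [hMdef, Nat.add_sub_cancel] at hP0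
    rw [hMdef] at hM
    obtain ⟨Dss, hs, μ, k1, k2, k3, k4, k5, k6, k7, k8⟩ := hP p V t
      (fun m hm => hpos m (by simp [hm])) (by omega)
    obtain ⟨l1, l2, l3⟩ := runs_len k1
    rw [opn_map_fst] at l2
    rw [opn_length] at l1
    have hsM : hs.sum ≤ u * M + (t.length - u) * p := by
      have h1 := sum_le_len (M := M) (fun x hx => by have := k8 x hx; omega) (hs := hs)
      rw [l1] at h1
      rcases Nat.le_total t.length u with h | h
      · have : t.length * M ≤ u * M := Nat.mul_le_mul_right _ h
        omega
      · have e : t.length * M = u * M + (t.length - u) * M := by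
          rw [← Nat.add_mul]; congr 1; omega
        have : (t.length - u) * M ≤ (t.length - u) * p := Nat.mul_le_mul_left _ (by omega)
        omega
    have hsp : hs.sum ≤ p * t.length := by
      have := sum_le_len (M := p) (fun x hx => (l3 x hx).le)
      rw [l1] at this
      rw [Nat.mul_comm]; exact this
    have htu : t.length + 1 - 1 - u = t.length - u := by omega
    rw [htu, Nat.mul_add, Nat.mul_one] at hC
    set V' := V ∪ (Dss.flatten.map (fun D => 2 * p - D)).toFinset with hV'
    have hV'card : V'.card ≤ V.card + t.sum := by
      have := card_used (p := p) (V := V) (l := Dss.flatten)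
      rw [hV']; omega
    obtain ⟨l, q1, q2, q3⟩ := small_free p (n - 1) V' (by omega)
    obtain ⟨c, c1, c2⟩ := inc_chain l 0 q2 (fun _ _ => Nat.zero_le _) (fun D hD => (q3 D hD).1)
    -- the set of used weights
    set W := V' ∪ (l.map (fun D => 2 * p - D)).toFinset with hW
    have hWcard : W.card ≤ M := by
      have := card_used (p := p) (V := V') (l := l)
      rw [hW]; omega
    have hcp : c < p := by
      rcases c2 with ⟨_, rfl⟩ | ⟨D, hD, hc⟩
      · omega
      · have := (q3 D hD).1; omega
    have hcused : ∀ D < c, 2 * p - D ∈ W := by
      intro D hD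
      rcases c2 with ⟨_, rfl⟩ | ⟨D', hD', hc⟩
      · omega
      · rcases (q3 D' hD').2.2 D (by omega) with h | h
        · exact Finset.mem_union_left _ h
        · apply Finset.mem_union_right
          simp only [List.mem_toFinset, List.mem_map]
          exact ⟨D, h, rfl⟩
    set a := C + p * t.length - hs.sum + p with ha
    have ha2 : 2 * p + 1 ≤ a := by omega
    -- counting
    obtain ⟨h, hh1, hh2, hh3⟩ : ∃ h, h < p - c ∧ 2 * p - c - h ∉ W ∧ a - h ∉ W := by
      by_contra hcon
      push Not at hcon
      -- the used deficits below c
      set U := (Finset.range c).image (fun D => 2 * p - D) with hU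
      have hUcard : U.card = c := by
        rw [hU, Finset.card_image_of_injOn, Finset.card_range]
        intro x hx y hy hxy
        simp only [Finset.coe_range, Set.mem_Iio] at hx hy
        simp only at hxy
        omega
      have hUW : U ⊆ W := by
        intro x hx
        obtain ⟨D, hD, rfl⟩ := Finset.mem_image.1 hx
        exact hcused D (Finset.mem_range.1 hD)
      set A1 := (Finset.range (p - c)).filter (fun h => 2 * p - c - h ∈ W) with hA1
      set A2 := (Finset.range (p - c)).filter (fun h => a - h ∈ W) with hA2
      have hA1c : A1.card ≤ (W \ U).card := by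
        apply Finset.card_le_card_of_injOn (fun h => 2 * p - c - h)
        · intro h hh
          rw [hA1, Finset.mem_coe, Finset.mem_filter, Finset.mem_range] at hh
          rw [Finset.mem_coe, Finset.mem_sdiff]
          refine ⟨hh.2, ?_⟩
          intro hc'
          obtain ⟨D, hD, hD'⟩ := Finset.mem_image.1 hc'
          rw [Finset.mem_range] at hD
          simp only at hD'
          omega
        · intro x hx y hy hxy
          rw [hA1, Finset.mem_coe, Finset.mem_filter, Finset.mem_range] at hx hy
          simp only at hxy
          omega
      have hA2c : A2.card ≤ W.card := by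
        apply Finset.card_le_card_of_injOn (fun h => a - h)
        · intro h hh
          rw [hA2, Finset.mem_coe, Finset.mem_filter, Finset.mem_range] at hh
          exact hh.2
        · intro x hx y hy hxy
          rw [hA2, Finset.mem_coe, Finset.mem_filter, Finset.mem_range] at hx hy
          simp only at hxy
          omega
      have hcov : Finset.range (p - c) ⊆ A1 ∪ A2 := by
        intro h hh
        rw [Finset.mem_range] at hh
        rw [Finset.mem_union, hA1, hA2, Finset.mem_filter, Finset.mem_filter, Finset.mem_range]
        by_cases h5 : 2 * p - c - h ∈ W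
        · exact Or.inl ⟨hh, h5⟩
        · exact Or.inr ⟨hh, hcon h hh h5⟩
      have h6 := Finset.card_le_card hcov
      rw [Finset.card_range] at h6
      have h7 := Finset.card_union_le A1 A2
      have h8 : (W \ U).card = W.card - c := by
        rw [Finset.card_sdiff_of_subset hUW, hUcard]
      have h9 : c ≤ W.card := hUcard ▸ Finset.card_le_card hUW
      omega
    have hch : Chain p 0 (l ++ [c + h]) h := by
      refine c1.append ⟨by omega, by omega, ?_⟩
      show c + h - c = h
      omega
    have hlmem : ∀ D ∈ l, 2 * p - D ∈ W := by
      intro D hD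
      apply Finset.mem_union_right
      simp only [List.mem_toFinset, List.mem_map]
      exact ⟨D, hD, rfl⟩
    have hV'W : ∀ x, x ∉ W → x ∉ V' := fun x hx hc' => hx (Finset.mem_union_left _ hc')
    have key : Star p V' (C + p * t.length - hs.sum) [(n, p)] := by
      refine ⟨[l ++ [c + h]], [h], a - h, ?_, ?_, ?_, ?_, by omega, hV'W _ hh3⟩
      · have e1 : (l ++ [c + h]).length = n := by
          rw [List.length_append, q1, List.length_singleton]
          clear * - hn1
          omega
        have e2 : h < p := by
          clear * - hh1
          omega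
        exact runs_mk e1 (chS_open (by simp) hch) e2 trivial
      · simp only [List.flatten_cons, List.flatten_nil, List.append_nil]
        rw [List.nodup_append]
        refine ⟨q2.imp (fun h => h.ne), by simp, ?_⟩
        intro D hD D' hD' he
        rw [List.mem_singleton] at hD'
        subst he
        subst hD'
        apply hh2
        have := hlmem _ hD
        rwa [show 2 * p - (c + h) = 2 * p - c - h by omega] at this
      · simp only [List.flatten_cons, List.flatten_nil, List.append_nil]
        intro D hD
        rw [List.mem_append, List.mem_singleton] at hD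
        rcases hD with hD | rfl
        · refine ⟨(q3 D hD).2.1, ?_⟩
          intro he
          exact hh3 (he ▸ hlmem D hD)
        · refine ⟨?_, by omega⟩
          apply hV'W
          rwa [show 2 * p - (c + h) = 2 * p - c - h by omega]
      · simp only [List.sum_cons, List.sum_nil, List.length_cons, List.length_nil]
        omega
    have := star_combine (C := C) k1 k2 k3 (by rw [opn_length]; exact key)
    refine star_perm ?_ this
    show (opn p t ++ [(n, p)]).Perm ((n, p) :: opn p t)
    exact List.perm_append_comm

end Irr43
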