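import Pool.Agent.Helper87.Irr.GoalsA

/-!
Tools for `Runs` and `Star` (MP_033e98_co).
-/

namespace Irr43

open Irr87

theorem runs_nil {p : ℕ} {Dss : List (List ℕ)} {hs : List ℕ} (h : Runs p [] Dss hs) :
    Dss = [] ∧ hs = [] := by
  cases Dss with
  | nil => cases hs with
    | nil => exact ⟨rfl, rfl⟩
    | cons _ _ => simp [Runs] at h
  | cons _ _ => simp [Runs] at h

theorem runs_cons {p : ℕ} {r : ℕ × ℕ} {rs : List (ℕ × ℕ)} {Dss : List (List ℕ)} {hs : List ℕ}
    (h : Runs p (r :: rs) Dss hs) : ∃ Ds Dss' h' hs', Dss = Ds :: Dss' ∧ hs = h' :: hs' ∧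
      Ds.length = r.1 ∧ ChS p r.2 Ds h' ∧ h' < p ∧ Runs p rs Dss' hs' := by
  obtain ⟨n, S⟩ := r
  cases Dss with
  | nil => cases hs <;> simp [Runs] at h
  | cons Ds Dss' =>
    cases hs with
    | nil => simp [Runs] at h
    | cons h' hs' =>
      simp only [Runs] at h
      exact ⟨Ds, Dss', h', hs', rfl, rfl, h.1, h.2.1, h.2.2.1, h.2.2.2⟩

theorem runs_mk {p : ℕ} {r : ℕ × ℕ} {rs : List (ℕ × ℕ)} {Ds : List ℕ} {Dss : List (List ℕ)}
    {h : ℕ} {hs : List ℕ} (h1 : Ds.length = r.1) (h2 : ChS p r.2 Ds h) (h3 : h < p)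
    (h4 : Runs p rs Dss hs) : Runs p (r :: rs) (Ds :: Dss) (h :: hs) := by
  obtain ⟨n, S⟩ := r
  exact ⟨h1, h2, h3, h4⟩

theorem runs_perm {p : ℕ} {rs rs' : List (ℕ × ℕ)} (hp : rs.Perm rs') :
    ∀ {Dss : List (List ℕ)} {hs : List ℕ}, Runs p rs Dss hs →
      ∃ Dss' hs', Runs p rs' Dss' hs' ∧ Dss.Perm Dss' ∧ hs.Perm hs' := by
  induction hp with
  | nil => intro Dss hs h; exact ⟨Dss, hs, h, List.Perm.refl _, List.Perm.refl _⟩
  | cons r _ ih =>
    intro Dss hs h
    obtain ⟨Ds, Dss', h', hs', rfl, rfl, h1, h2, h3, h4⟩ := runs_cons h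
    obtain ⟨D2, s2, h5, h6, h7⟩ := ih h4
    exact ⟨Ds :: D2, h' :: s2, runs_mk h1 h2 h3 h5, h6.cons _, h7.cons _⟩
  | swap r r' l =>
    intro Dss hs h
    obtain ⟨Ds, Dss', h', hs', rfl, rfl, h1, h2, h3, h4⟩ := runs_cons h
    obtain ⟨Ds2, Dss2, h2', hs2, rfl, rfl, k1, k2, k3, k4⟩ := runs_cons h4
    exact ⟨Ds2 :: Ds :: Dss2, h2' :: h' :: hs2, runs_mk k1 k2 k3 (runs_mk h1 h2 h3 k4),
      List.Perm.swap _ _ _, List.Perm.swap _ _ _⟩
  | trans _ _ ih1 ih2 =>
    intro Dss hs h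
    obtain ⟨D1, s1, h1, h2, h3⟩ := ih1 h
    obtain ⟨D2, s2, h4, h5, h6⟩ := ih2 h1
    exact ⟨D2, s2, h4, h2.trans h5, h3.trans h6⟩

theorem star_perm {p C : ℕ} {V : Finset ℕ} {rs rs' : List (ℕ × ℕ)} (hp : rs.Perm rs')
    (h : Star p V C rs) : Star p V C rs' := by
  obtain ⟨Dss, hs, w, h1, h2, h3, h4, h5, h6⟩ := h
  obtain ⟨Dss', hs', k1, k2, k3⟩ := runs_perm hp h1
  refine ⟨Dss', hs', w, k1, k2.flatten.nodup_iff.1 h2, ?_, ?_, h5, h6⟩
  · intro D hD
    exact h3 D (k2.flatten.mem_iff.2 hD)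
  · rw [← k3.sum_eq, ← hp.length_eq]; exact h4

theorem runs_len {p : ℕ} {rs : List (ℕ × ℕ)} : ∀ {Dss : List (List ℕ)} {hs : List ℕ},
    Runs p rs Dss hs → hs.length = rs.length ∧ Dss.flatten.length = (rs.map Prod.fst).sum ∧
      ∀ h ∈ hs, h < p := by
  induction rs with
  | nil =>
    intro Dss hs h
    obtain ⟨rfl, rfl⟩ := runs_nil h
    simp
  | cons r rs ih =>
    intro Dss hs h
    obtain ⟨Ds, Dss', h', hs', rfl, rfl, h1, h2, h3, h4⟩ := runs_cons h
    obtain ⟨k1, k2, k3⟩ := ih h4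
    refine ⟨by simp [k1], by simp [h1, k2], ?_⟩
    intro x hx
    rcases List.mem_cons.1 hx with rfl | hx
    · exact h3
    · exact k3 x hx

theorem sum_le_len {M : ℕ} {hs : List ℕ} (h : ∀ x ∈ hs, x ≤ M) : hs.sum ≤ hs.length * M := by
  have := List.sum_le_card_nsmul hs M h
  simpa using this

/-- the weights with given deficits -/
theorem card_used {p : ℕ} {V : Finset ℕ} {l : List ℕ} :
    (V ∪ (l.map (fun D => 2 * p - D)).toFinset).card ≤ V.card + l.length := by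
  refine le_trans (Finset.card_union_le _ _) ?_
  have := List.toFinset_card_le (l.map (fun D => 2 * p - D))
  rw [List.length_map] at this
  omega

theorem chS_lt {p S : ℕ} {Ds : List ℕ} {h : ℕ} (hc : ChS p S Ds h) : ∀ D ∈ Ds, D < p := by
  obtain ⟨D, l, rfl, h1, h2, h3, h4⟩ := hc
  intro D' hD'
  rcases List.mem_cons.1 hD' with rfl | hD'
  · exact h3
  · exact h4.le D' hD'

theorem runs_lt {p : ℕ} {rs : List (ℕ × ℕ)} : ∀ {Dss : List (List ℕ)} {hs : List ℕ},
    Runs p rs Dss hs → ∀ D ∈ Dss.flatten, D < p := by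
  induction rs with
  | nil =>
    intro Dss hs h
    obtain ⟨rfl, rfl⟩ := runs_nil h
    simp
  | cons r rs ih =>
    intro Dss hs h
    obtain ⟨Ds, Dss', h', hs', rfl, rfl, h1, h2, h3, h4⟩ := runs_cons h
    intro D hD
    rw [List.flatten_cons, List.mem_append] at hD
    rcases hD with hD | hD
    · exact chS_lt h2 D hD
    · exact ih h4 D hD

theorem chS_open {p : ℕ} {Ds : List ℕ} {h : ℕ} (hne : Ds ≠ []) (hc : Chain p 0 Ds h) :
    ChS p p Ds h := by
  cases Ds with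
  | nil => exact absurd rfl hne
  | cons D l =>
    obtain ⟨h1, h2, h3⟩ := hc
    refine ⟨D, l, rfl, by omega, by omega, h2, ?_⟩
    have : p + D - p = D - 0 := by omega
    rw [this]; exact h3

/-- `In` is monotone -/
theorem In.mono {p : ℕ} {V V' : Finset ℕ} {z : ℕ} (h : In p V z) (hV : V ⊆ V') : In p V' z := by
  intro y hy
  refine le_trans (h y hy) (Finset.card_le_card ?_)
  intro w hw
  rw [Finset.mem_filter] at hw ⊢
  exact ⟨hV hw.1, hw.2⟩

/-- adding placed runs in front of a star with a bigger `V` -/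
theorem star_combine {p C : ℕ} {V : Finset ℕ} {rs rs0 : List (ℕ × ℕ)} {Dss : List (List ℕ)}
    {hs : List ℕ} (hr : Runs p rs Dss hs) (hnd : Dss.flatten.Nodup)
    (hfree : ∀ D ∈ Dss.flatten, 2 * p - D ∉ V)
    (h : Star p (V ∪ (Dss.flatten.map (fun D => 2 * p - D)).toFinset)
      (C + p * rs.length - hs.sum) rs0) : Star p V C (rs ++ rs0) := by
  obtain ⟨Dss0, hs0, w, h1, h2, h3, h4, h5, h6⟩ := h
  have hlt := runs_lt hr
  have hlt0 := runs_lt h1
  have hlen := (runs_len hr)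
  have happ : ∀ {rs : List (ℕ × ℕ)} {Dss : List (List ℕ)} {hs : List ℕ}, Runs p rs Dss hs →
      Runs p (rs ++ rs0) (Dss ++ Dss0) (hs ++ hs0) := by
    intro rs
    induction rs with
    | nil =>
      intro Dss hs h
      obtain ⟨rfl, rfl⟩ := runs_nil h
      exact h1
    | cons r rs ih =>
      intro Dss hs h
      obtain ⟨Ds, Dss', h', hs', rfl, rfl, k1, k2, k3, k4⟩ := runs_cons h
      exact runs_mk k1 k2 k3 (ih k4)
  have hsum : hs.sum ≤ p * rs.length := by
    have := sum_le_len (M := p) (fun x hx => (hlen.2.2 x hx).le)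
    rw [hlen.1] at this
    rw [Nat.mul_comm]; exact this
  refine ⟨Dss ++ Dss0, hs ++ hs0, w, happ hr, ?_, ?_, ?_, h5, ?_⟩
  · rw [List.flatten_append, List.nodup_append]
    refine ⟨hnd, h2, ?_⟩
    intro D hD D' hD' he
    subst he
    have := (h3 D hD').1
    apply this
    rw [Finset.mem_union]
    right
    simp only [List.mem_toFinset, List.mem_map]
    exact ⟨D, hD, rfl⟩
  · intro D hD
    rw [List.flatten_append, List.mem_append] at hD
    rcases hD with hD | hD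
    · refine ⟨hfree D hD, ?_⟩
      rintro rfl
      apply h6
      rw [Finset.mem_union]
      right
      simp only [List.mem_toFinset, List.mem_map]
      exact ⟨D, hD, rfl⟩
    · refine ⟨fun hc => (h3 D hD).1 (Finset.mem_union_left _ hc), (h3 D hD).2⟩
  · rw [List.sum_append, List.length_append, Nat.mul_add]
    omega
  · intro hc
    exact h6 (Finset.mem_union_left _ hc)

end Irr43
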